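import Pool.Agent.FU2.Stmts

/-!
# FU2 (helper3): rows PRS, DRF, CNV, PRK
-/

set_option autoImplicit false

open Finset

namespace Pool.Agent.FU2.H3

open Pool.Agent.FUR Pool.Agent.FU2

variable {N : ℕ}

/-- the sign of a bit -/
def sg (b : Bool) : ℝ := if b then -1 else 1

theorem sg_mul_self (b : Bool) : sg b * sg b = 1 := by
  unfold sg
  split_ifs <;> norm_num

theorem ch_eq (S : Finset (Fin N)) (x : Fin N → Bool) : ch S x = ∏ v ∈ S, sg (x v) := rfl

theorem ch_univ (S : Finset (Fin N)) (x : Fin N → Bool) :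
    ch S x = ∏ v, if v ∈ S then sg (x v) else 1 := by
  rw [Finset.prod_ite_mem, Finset.univ_inter, ch_eq]

theorem ch_mul (S T : Finset (Fin N)) (x : Fin N → Bool) :
    ch T x * ch S x = ch (symmDiff T S) x := by
  rw [ch_univ, ch_univ, ch_univ, ← Finset.prod_mul_distrib]
  refine Finset.prod_congr rfl fun v _ => ?_
  by_cases h1 : v ∈ T <;> by_cases h2 : v ∈ S <;>
    simp [Finset.mem_symmDiff, h1, h2, sg_mul_self]

theorem ch_orth (x y : Fin N → Bool) :
    ∑ S : Finset (Fin N), ch S x * ch S y = if x = y then (2 : ℝ) ^ N else 0 := by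
  have h1 : ∀ S : Finset (Fin N), ch S x * ch S y = ∏ v ∈ S, (sg (x v) * sg (y v)) := by
    intro S
    rw [ch_eq, ch_eq, Finset.prod_mul_distrib]
  simp only [h1]
  have h2 := (Finset.prod_one_add (univ : Finset (Fin N)) (f := fun v => sg (x v) * sg (y v)))
  rw [Finset.powerset_univ] at h2
  rw [← h2]
  split_ifs with h
  · subst h
    simp only [sg_mul_self]
    rw [Finset.prod_const, Finset.card_univ, Fintype.card_fin]
    norm_num
  · obtain ⟨v, hv⟩ := Function.ne_iff.1 h
    refine Finset.prod_eq_zero (Finset.mem_univ v) ?_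
    unfold sg
    cases hx : x v <;> cases hy : y v
    · exact absurd (hx.trans hy.symm) hv
    · norm_num
    · norm_num
    · exact absurd (hx.trans hy.symm) hv

theorem prs : PRSStmt := by
  intro N g
  have hN : (2 : ℝ) ^ N ≠ 0 := by positivity
  constructor
  · have h1 : ∀ S : Finset (Fin N), fc g S ^ 2 =
        (∑ x, ∑ y, g x * g y * (ch S x * ch S y)) / (2 ^ N * 2 ^ N) := by
      intro S
      unfold fc
      rw [div_pow, pow_two, pow_two, Finset.sum_mul_sum]
      congr 1
      refine Finset.sum_congr rfl fun x _ => Finset.sum_congr rfl fun y _ => ?_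
      ring
    simp only [h1]
    rw [← Finset.sum_div, Finset.sum_comm]
    have h2 : ∀ x : Fin N → Bool, ∑ S : Finset (Fin N), ∑ y, g x * g y * (ch S x * ch S y) =
        g x ^ 2 * 2 ^ N := by
      intro x
      rw [Finset.sum_comm]
      have h3 : ∀ y : Fin N → Bool, ∑ S : Finset (Fin N), g x * g y * (ch S x * ch S y) =
          if x = y then g x * g y * 2 ^ N else 0 := by
        intro y
        rw [← Finset.mul_sum, ch_orth]
        split_ifs <;> simp
      simp only [h3]
      rw [Finset.sum_ite_eq, if_pos (Finset.mem_univ _)]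
      ring
    simp only [h2]
    rw [← Finset.sum_mul]
    field_simp
  · intro x
    unfold fc
    have h1 : ∀ S : Finset (Fin N), (∑ y, g y * ch S y) / 2 ^ N * ch S x =
        (∑ y, g y * (ch S y * ch S x)) / 2 ^ N := by
      intro S
      rw [div_mul_eq_mul_div, Finset.sum_mul]
      congr 1
      refine Finset.sum_congr rfl fun y _ => ?_
      ring
    simp only [h1]
    rw [← Finset.sum_div, Finset.sum_comm]
    have h3 : ∀ y : Fin N → Bool, ∑ S : Finset (Fin N), g y * (ch S y * ch S x) =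
        if y = x then g y * 2 ^ N else 0 := by
      intro y
      rw [← Finset.mul_sum, ch_orth]
      split_ifs <;> simp
    simp only [h3]
    rw [Finset.sum_ite_eq', if_pos (Finset.mem_univ _), mul_div_assoc, div_self hN, mul_one]

theorem fS_fS (x : Fin N → Bool) (J : Finset (Fin N)) : fS (fS x J) J = x := by
  funext v
  unfold fS
  by_cases h : v ∈ J <;> simp [h]

theorem ch_fS (S J : Finset (Fin N)) (x : Fin N → Bool) :
    ch S (fS x J) = (∏ i ∈ J, if i ∈ S then (-1 : ℝ) else 1) * ch S x := by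
  have h1 : (∏ i ∈ J, if i ∈ S then (-1 : ℝ) else 1) = ∏ v, if v ∈ S ∩ J then (-1 : ℝ) else 1 := by
    rw [Finset.prod_ite_mem, Finset.prod_ite_mem, Finset.univ_inter, Finset.inter_comm]
  rw [h1, ch_univ, ch_univ, ← Finset.prod_mul_distrib]
  refine Finset.prod_congr rfl fun v _ => ?_
  by_cases h1 : v ∈ S <;> by_cases h2 : v ∈ J <;> simp [fS, h1, h2, sg]
  cases x v <;> norm_num

theorem sum_fS (g : (Fin N → Bool) → ℝ) (J : Finset (Fin N)) :
    ∑ x, g (fS x J) = ∑ x, g x :=
  Fintype.sum_bijective (fun x => fS x J)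
    (Function.Involutive.bijective fun x => fS_fS x J) _ _ fun _ => rfl

theorem drf : DRFStmt := by
  intro N I g S
  have h1 : ∀ J : Finset (Fin N), ∑ x, (-1 : ℝ) ^ J.card * g (fS x J) * ch S x =
      (∏ i ∈ J, -(if i ∈ S then (-1 : ℝ) else 1)) * ∑ x, g x * ch S x := by
    intro J
    have h2 : (∏ i ∈ J, -(if i ∈ S then (-1 : ℝ) else 1)) =
        (-1 : ℝ) ^ J.card * ∏ i ∈ J, (if i ∈ S then (-1 : ℝ) else 1) :=
      Finset.prod_neg _
    rw [h2, ← sum_fS (fun x => (-1 : ℝ) ^ J.card * g (fS x J) * ch S x) J]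
    simp only [fS_fS, ch_fS]
    rw [Finset.mul_sum]
    refine Finset.sum_congr rfl fun x _ => ?_
    ring
  have h3 : ∑ x, dv I g x * ch S x =
      (∑ J ∈ I.powerset, ∏ i ∈ J, -(if i ∈ S then (-1 : ℝ) else 1)) * ∑ x, g x * ch S x := by
    unfold dv
    simp only [Finset.sum_mul]
    rw [Finset.sum_comm]
    refine Finset.sum_congr rfl fun J _ => ?_
    rw [h1 J]
  have h4 : (∑ J ∈ I.powerset, ∏ i ∈ J, -(if i ∈ S then (-1 : ℝ) else 1)) =
      if I ⊆ S then 2 ^ I.card else 0 := by
    rw [← Finset.prod_one_add]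
    split_ifs with h
    · have h5 : ∀ i ∈ I, (1 : ℝ) + -(if i ∈ S then (-1 : ℝ) else 1) = 2 := by
        intro i hi
        rw [if_pos (h hi)]
        norm_num
      rw [Finset.prod_congr rfl h5, Finset.prod_const]
    · obtain ⟨i, hi, hiS⟩ := Finset.not_subset.1 h
      refine Finset.prod_eq_zero hi ?_
      rw [if_neg hiS]
      norm_num
  unfold fc
  rw [h3, h4]
  split_ifs
  · rw [mul_div_assoc]
  · rw [zero_mul, zero_div]

theorem fc_mul (prs : PRSStmt) (g h : RF N) (S : Finset (Fin N)) :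
    fc (fun x => g x * h x) S = ∑ T : Finset (Fin N), fc g T * fc h (symmDiff T S) := by
  have h1 : ∀ T : Finset (Fin N), fc g T * fc h (symmDiff T S) =
      (∑ x, fc g T * ch T x * (h x * ch S x)) / 2 ^ N := by
    intro T
    conv_lhs => rw [fc.eq_def h]
    rw [mul_div_assoc', Finset.mul_sum]
    congr 1
    refine Finset.sum_congr rfl fun x _ => ?_
    rw [← ch_mul]
    ring
  simp only [h1]
  rw [← Finset.sum_div, Finset.sum_comm]
  unfold fc
  congr 1
  refine Finset.sum_congr rfl fun x _ => ?_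
  rw [← Finset.sum_mul]
  have h2 := (prs N g).2 x
  unfold fc at h2
  rw [← h2]
  ring

theorem cnv (prs : PRSStmt) : CNVStmt := by
  intro N a b g h hg hh S hS
  rw [fc_mul prs] at hS
  obtain ⟨T, -, hT⟩ := Finset.exists_ne_zero_of_sum_ne_zero hS
  have h1 := hg T (left_ne_zero_of_mul hT)
  have h2 := hh _ (right_ne_zero_of_mul hT)
  have h3 : S ⊆ T ∪ symmDiff T S := by
    intro v hv
    rw [Finset.mem_union, Finset.mem_symmDiff]
    by_cases h : v ∈ T
    · exact Or.inl h
    · exact Or.inr (Or.inr ⟨hv, h⟩)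
  exact (Finset.card_le_card h3).trans ((Finset.card_union_le _ _).trans (by omega))

theorem px_prod (σ : ℕ → Bool) (i : ℕ) :
    (if px σ i then (-1 : ℝ) else 1) = ∏ l ∈ range i, sg (σ l) := by
  induction i with
  | zero => simp [px]
  | succ i ih =>
    rw [Finset.prod_range_succ, ← ih]
    have e : px σ (i + 1) = xor (px σ i) (σ i) := rfl
    rw [e]
    unfold sg
    cases px σ i <;> cases σ i <;> norm_num

theorem par_prod (y : Fin N → Bool) :
    (if par y then (-1 : ℝ) else 1) = ∏ v, sg (y v) := by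
  unfold par
  rw [px_prod, Finset.prod_range]
  refine Finset.prod_congr rfl fun v _ => ?_
  unfold asg
  rw [dif_pos v.2]

theorem prk : PRKStmt := by
  intro n K ρ
  refine ⟨∏ v, if v ∈ K then 1 else sg (ρ v), ?_, fun x => ?_⟩
  · rw [← Finset.prod_pow]
    refine Finset.prod_eq_one fun v _ => ?_
    split_ifs
    · norm_num
    · rw [pow_two, sg_mul_self]
  · rw [par_prod, ch_univ, ← Finset.prod_mul_distrib]
    refine Finset.prod_congr rfl fun v _ => ?_
    unfold ov
    by_cases h : v ∈ K
    · simp [h]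
    · simp [h]

end Pool.Agent.FU2.H3
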